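import Mathlib
import Pool.Agent.V5helper90.GT.Main
import Pool.Agent.V5helper90.GT.Small

/-!
# The motivic Tate conjecture for `h¹(A) ⊕ N` reduces to `N`, for any motive `N` and for the abelian
varieties `A` with one Frobenius polynomial in almost all of any Newton stratum

Let `p` be a prime number, `κ` a finite set and `g i`, `i ∈ κ`, positive numbers. For each `i` we fix
a symmetric Newton polygon `s i` of height `2 g i` (`IsNewtonPolygon`; the slopes are `s i j` and
`1 - s i j`, `j < g i`, and the break points are integral) that is not supersingular. The set
`Stratum g s p a` consists of the families `(P i)` of Frobenius polynomials (`IsFrobPoly`) of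
abelian varieties of dimension `g i` over the field with `q = p ^ a` elements with the Newton
polygons `s i`; by Honda and Tate these are the families of isogeny classes with these polygons. Let
`L₀` be a number field in `ℂ`.

**The theorem.** For every `ε > 0` and every `N` and all large `a` the set `Stratum g s p a` is finite
with at least `N` elements, and for all families `(P i)` in it but at most `ε * #Stratum g s p a` the
following holds (`KunnethFor`). Let `A` be an abelian variety over a number field `k` (or a finitely
generated field) which has good reduction at some place with a residue field of `q` elements at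
which the characteristic polynomial of the Frobenius element `γ` is `∏ i, P i`. Let `W` be **any**
representation of the Galois group `Γ` of `k` over `ℚ_ℓ` such that the rational polynomial `f`
annihilates the action of `γ` (for example the characteristic polynomial of `γ`) and `f` is free
(`IsFree`): for each `i` the angle rank of the roots of `f` relative to `L₀` is less than `g i`, or for
each root `x` of `f` and each root `z` of `P i` some automorphism of `ℂ` fixes a power of `x` and sends
`z` to its complex conjugate. Then (`KunnethTate`):

**every Tate class with values in `W` on the tensor powers of `H_1(A)`, i.e. every class in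
`H¹(A)^{⊗ n} ⊗ W` which is fixed by a subgroup of finite index of `Γ`, is a linear combination of
products `ψ ⊗ w`, where `ψ` is a product of Hodge classes of degree two on `A` and `w` is a Tate class
in `W (- m)`, `n = 2 m`.**

The angle rank of a set `E` relative to `L₀` is the rank of the group generated by the numbers `r / r̄`,
`r ∈ E`, modulo `L₀` (`AngleRankLT`). The theorem also says that it is less than `g` in two cases: if each
element of `E` has a power in `L₀` (and `g ≥ 1`), and if `E` has less than `2 g` elements (`E` is
stable under complex conjugation); and that the angle rank of a set in the group generated by `E` is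
at most the one of `E`.

**The motivic Tate conjecture.** Let `N` be a motive over `k` (in the sense of André, or for absolute
Hodge cycles), with good reduction at the same place; nothing else is assumed. Let `E` be the set of
the eigenvalues of `γ` on `N`; assume that the angle rank of `E` relative to `L₀` is less than all `g i`:
for instance that the rank of `N` is less than `2 g i` for all `i`, or that the eigenvalues of `γ` have
powers in `L₀`. Then all tensor constructions `W` of `N` satisfy the condition, as their eigenvalues are
products of those of `N` and of their inverses. So if all Tate classes in the tensor constructions of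
`N` are motivated (or absolute Hodge) then the same holds for the tensor constructions of the motive
`h¹(A) ⊕ N` (`motivated_of_kunneth`), since the Hodge classes of degree two on `A` are classes of
divisors. The realization of `h¹(A) ⊕ N` is semisimple if the one of `N` is semisimple (Faltings), and
reductive groups are determined by their invariants. Therefore `G_ℓ° = 𝒢°` for the motive
`h¹(A) ⊕ N` if and only if `G_ℓ° = 𝒢°` for `N`: the motivic Tate conjecture (up to finite groups)
for `h¹(A) ⊕ N` **is equivalent to** the one for `N`. This holds

* for all motives `N` of rank less than `2 g i` at the same time, and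
* for **each** motive `N` over a number field `k₀` with good reduction at some place `v₀`, if `L₀` is
  the field generated by the eigenvalues of Frobenius at `v₀`: the eigenvalues over the extensions of
  the residue field are powers of them. So for each `N` the equivalence holds for 100% of the isogeny
  classes, of each dimension and each Newton polygon which is not supersingular, for all abelian
  varieties `A` over all finite extensions of `k₀` with the reduction at one place over `v₀` in one of
  these isogeny classes.

In the formal statement (`IsRealization`) `H` is `H_1(A, ℚ)`, `T` the tangent space at the origin and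
`per : H → T` the inclusion, `ω₀` is the form given by a polarization; `V` is the rational Tate module
with the comparison map `comp : H → V`, the action `ρ` of the Galois group and the Weil pairing `ω`;
`χ` is the cyclotomic character. The theorems of Faltings on endomorphisms and on semisimplicity are
part of the data.

**What is new.** For products of abelian varieties, and for abelian motives, the Mumford-Tate
conjecture for the factors implies it for the product (Hindry-Ratazzi, Lombardo, Commelin). Here
`N` is an arbitrary motive, and nothing is known or assumed on it (neither the conjecture nor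
the semisimplicity); the proof compares only one Frobenius element. That the conjecture holds for
`h¹(A)` itself, for these `A`, is proved in `Pool.Agent.Results.MP_33b3f9_ag.NewtonStrata`. The starting
files on this problem are on motives with regular unipotent monodromy or given Hodge types, and say
nothing on sums with other motives.

**The proof.** The counting is the one of the starting files `Pool.Agent.W518.DN`: for 100% of the
families some primes have prescribed decomposition laws. We deduce (`density_over`) that for each pair
`z`, `q / z` of roots of `P i` some automorphism of `ℂ` exchanges these two numbers and fixes all other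
roots of all the polynomials `P k` and the elements of `L₀` (a flip); no power of a root is a power of
`q`. Let `φ` be a Tate class with values in `W`, and expand it over an eigenbasis of `γ` on `V`: a
coefficient is a vector in `W` on which a power of `γ` acts through the product of eigenvalues of `A`.
So a product `∏ z l ^ M` is equal to `x ^ M` for a root `x` of `f` (`exists_root_pow`). Apply a flip
and divide: a power of `z ^ 2 / q` is a quotient of conjugates of `x ^ M`, and by Galois the same
holds for the `g i` pairs of roots of `P i`, so that the group generated by the numbers `r / r̄` has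
rank `g i` modulo `L₀`, unless the numbers `z`, `q / z` occur equally often in the product
(`balanced`). Hence all coordinates of `φ` with respect to a basis of `W` are sums of products over
pairs `z`, `q / z`. They span a space which is stable under the Galois group, and an argument with the
projections of Faltings shows (`stable_mem`, after `H204R3.GP`) that these forms are combinations of
products of Tate classes of degree two, which come from divisors by Faltings; linear algebra
(`kunneth_of`) gives the Künneth formula.
-/

set_option autoImplicit false

namespace Pool.Agent.Results.MP_bbcdf5_ag.AbelianSummands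

open Polynomial Pool.Agent.V5helper90.NS Pool.Agent.V5helper90.GT Pool.Agent.H204R3.GP
  Pool.Agent.TH170

/-- The Künneth formula for Tate classes holds for all abelian varieties (over number fields or
finitely generated subfields of `ℂ`) with a Frobenius element `γ`, for a residue field with `q`
elements, with the characteristic polynomial `∏ i, P i`, for all prime numbers `ℓ` and for all
representations `W` of the Galois group on which `γ` is annihilated by a rational polynomial `f` which
is free of the abelian varieties with the Frobenius polynomials `P i` relative to `L₀`. -/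
def KunnethFor {κ : Type} [Fintype κ] (L₀ : IntermediateField ℚ ℂ) (g : κ → ℕ) (q : ℕ)
    (P : κ → ℤ[X]) : Prop :=
  ∀ (ℓ : ℕ) [Fact ℓ.Prime] (H T V W Γ : Type) [AddCommGroup H] [Module ℚ H] [AddCommGroup T]
    [Module ℂ T] [AddCommGroup V] [Module ℚ_[ℓ] V] [FiniteDimensional ℚ_[ℓ] V] [AddCommGroup W]
    [Module ℚ_[ℓ] W] [FiniteDimensional ℚ_[ℓ] W] [Group Γ]
    (per : H →+ T) (ω₀ : H →ₗ[ℚ] H →ₗ[ℚ] ℚ) (comp : H →+ V) (ρ : Representation ℚ_[ℓ] Γ V)
    (χ : Γ →* ℚ_[ℓ]) (ω : V →ₗ[ℚ_[ℓ]] V →ₗ[ℚ_[ℓ]] ℚ_[ℓ]) (σ : Representation ℚ_[ℓ] Γ W) (γ : Γ)
    (f : ℚ[X]), FT.IsRealization per ω₀ comp ρ χ ω → χ γ = (q : ℚ_[ℓ]) →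
    (ρ γ).charpoly = ∏ i, (P i).map (Int.castRingHom ℚ_[ℓ]) →
    aeval (σ γ) (f.map (algebraMap ℚ ℚ_[ℓ])) = 0 → IsFree L₀ g P f →
    KunnethTate per comp ρ χ σ

/-- **The Künneth formula for Tate classes of abelian varieties with values in arbitrary
representations**, for 100% of the Frobenius polynomials in any Newton stratum that is not
supersingular; and three properties of the angle rank. -/
theorem result (L₀ : IntermediateField ℚ ℂ) [FiniteDimensional ℚ L₀] :
    (∀ {κ : Type} [Fintype κ] [Nonempty κ] (p : ℕ) [Fact p.Prime]
      (g : κ → ℕ) (_ : ∀ i, 1 ≤ g i) (s : ∀ i, Fin (g i) → ℚ) (_ : ∀ i, IsNewtonPolygon (s i))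
      (_ : ∀ i, ∃ j, s i j < 1 / 2) (N : ℕ) (ε : ℝ) (_ : 0 < ε),
      ∃ a₀ : ℕ, ∀ a, a₀ ≤ a →
        (Stratum g s p a).Finite ∧ N ≤ (Stratum g s p a).ncard ∧
        ({P ∈ Stratum g s p a | ¬ KunnethFor L₀ g (p ^ a) P}.ncard : ℝ) ≤
          ε * ((Stratum g s p a).ncard : ℝ)) ∧
    (∀ (E : Set ℂ), (∀ r ∈ E, (starRingEnd ℂ) r ∈ E) → ∀ g : ℕ,
      ((1 ≤ g ∧ ∀ r ∈ E, ∃ m : ℕ, 0 < m ∧ r ^ m ∈ L₀) ∨ (E.Finite ∧ E.ncard < 2 * g)) →
      AngleRankLT L₀ E g) ∧
    ∀ (E E' : Set ℂ) (g : ℕ), AngleRankLT L₀ E g →
      (∀ u : ℂˣ, (u : ℂ) ∈ E' → u ∈ Subgroup.closure {v : ℂˣ | (v : ℂ) ∈ E}) →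
      AngleRankLT L₀ E' g := by
  refine ⟨?_, ?_, fun E E' g h1 h2 => angleRank_mono h2 h1⟩
  · intro κ _ _ p _ g hg s hs hss N ε hε
    exact density_over L₀ p g hg s hs hss N ε hε (fun a P => KunnethFor L₀ g (p ^ a) P)
      fun a P _ _ h ℓ _ H T V W Γ _ _ _ _ _ _ _ _ _ _ _ per ω₀ comp ρ χ ω σ γ f hR h1 h2 h3 h4 =>
        kunneth_of_nice hg h hR σ h1 h2 h3 h4
  · rintro E hE g (⟨h1, h2⟩ | ⟨h1, h2⟩)
    · exact angleRank_of_field hE h2 h1
    · exact angleRank_of_card hE h1 h2

/-- If the Tate classes in the twists `W (- m)` are linear combinations of the elements of the sets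
`𝓜 m` (the classes of motivated cycles, or of absolute Hodge cycles) then the Tate classes with
values in `W` are linear combinations of products of Hodge classes of degree two on `A` and of elements
of the sets `𝓜 m`. -/
theorem motivated_of_kunneth {k V W Γ H T : Type*} [Field k] [CharZero k] [AddCommGroup V]
    [Module k V] [AddCommGroup W] [Module k W] [Group Γ] [AddCommGroup H] [Module ℚ H]
    [AddCommGroup T] [Module ℂ T] {per : H →+ T} {comp : H →+ V} {ρ : Representation k Γ V}
    {χ : Γ →* k} {σ : Representation k Γ W} (hK : KunnethTate per comp ρ χ σ) (𝓜 : ℕ → Set W)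
    (h𝓜 : ∀ m w, IsTateVector σ χ m w → w ∈ Submodule.span k (𝓜 m)) (n : ℕ)
    (φ : MultilinearMap k (fun _ : Fin n => V) W) (hφ : IsTateValued ρ σ φ) :
    φ ∈ Submodule.span k {φ' : MultilinearMap k (fun _ : Fin n => V) W |
      ∃ (m : ℕ) (τ : Fin n ≃ Fin m × Fin 2)
        (ψ₀ : MultilinearMap ℚ (fun _ : Fin m × Fin 2 => H) ℚ)
        (ψ : MultilinearMap k (fun _ : Fin m × Fin 2 => V) k) (w : W),
        IsHodgeTensor per ψ₀ ∧ IsProductOfHodgeBilinear per ψ₀ ∧ Compares comp ψ ψ₀ ∧
        w ∈ 𝓜 m ∧ ∀ v, φ' v = ψ (fun l => v (τ.symm l)) • w} := by
  refine (Submodule.span_le.2 ?_) (hK n φ hφ)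
  rintro φ' ⟨m, τ, ψ₀, ψ, w, h1, h2, h3, hw, h4⟩
  have h5 : φ' = (ψ.domDomCongr τ.symm).smulRight w := MultilinearMap.ext h4
  rw [SetLike.mem_coe, h5]
  have h6 : ∀ w' ∈ Submodule.span k (𝓜 m), (ψ.domDomCongr τ.symm).smulRight w' ∈
      Submodule.span k {φ' : MultilinearMap k (fun _ : Fin n => V) W |
      ∃ (m : ℕ) (τ : Fin n ≃ Fin m × Fin 2)
        (ψ₀ : MultilinearMap ℚ (fun _ : Fin m × Fin 2 => H) ℚ)
        (ψ : MultilinearMap k (fun _ : Fin m × Fin 2 => V) k) (w : W),
        IsHodgeTensor per ψ₀ ∧ IsProductOfHodgeBilinear per ψ₀ ∧ Compares comp ψ ψ₀ ∧
        w ∈ 𝓜 m ∧ ∀ v, φ' v = ψ (fun l => v (τ.symm l)) • w} := by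
    intro w' hw'
    induction hw' using Submodule.span_induction with
    | mem w' hw' => exact Submodule.subset_span ⟨m, τ, ψ₀, ψ, w', h1, h2, h3, hw', fun v => rfl⟩
    | zero =>
      have h7 : (ψ.domDomCongr τ.symm).smulRight (0 : W) = 0 := by
        ext v
        exact smul_zero _
      rw [h7]
      exact Submodule.zero_mem _
    | add x y _ _ hx hy =>
      have h7 : (ψ.domDomCongr τ.symm).smulRight (x + y) =
          (ψ.domDomCongr τ.symm).smulRight x + (ψ.domDomCongr τ.symm).smulRight y := by
        ext v
        exact smul_add _ _ _
      rw [h7]
      exact Submodule.add_mem _ hx hy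
    | smul r x _ hx =>
      have h7 : (ψ.domDomCongr τ.symm).smulRight (r • x) =
          r • (ψ.domDomCongr τ.symm).smulRight x := by
        ext v
        exact smul_comm _ _ _
      rw [h7]
      exact Submodule.smul_mem _ _ hx
  exact h6 w (h𝓜 m w hw)

end Pool.Agent.Results.MP_bbcdf5_ag.AbelianSummands
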