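import Pool.Agent.V5helper84.QT.Norm

/-!
# The motivic Tate conjecture and Tate tensors of type (2, 2)

Let `k` be a finitely generated field of characteristic zero and let `M i` be finitely many motives over
`k` (of André, or for absolute Hodge cycles); `V i = ℚ_ℓ ^ (n i)` are their `ℓ`-adic realizations, with
the actions `ρ i` of the Galois group `Γ` of `k`, and `M` is the direct sum of the `M i`, with
realization `V`. Let `𝔤` be the Lie algebra of the `ℓ`-adic motivic Galois group of `M`. The
properties of `𝔤` which are used are collected in `IsMotivic` (starting library): it is a Lie algebra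
which respects the direct sum, it is reductive, it consists of all endomorphisms which kill all
tensors killed by `𝔤`, and these tensors are Tate tensors, that is, fixed by a subgroup of finite
index of `Γ`, since motivated classes are Tate classes. **There is no condition on the type of the
motivic Galois group or on its representation, on the weights and Hodge numbers, and no polarization
is used.**

The motivic Tate conjecture for `M`, up to finite groups (equivalently the motivic Mumford-Tate
conjecture, which is equivalent to the motivic Tate conjecture, see the problem), says that the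
representation of `Γ` is semisimple (for all subgroups of finite index), and that the Tate tensors, in
any number of variables in `V` and its dual space, are exactly the tensors killed by `𝔤` (`AllTate`).

The following statements are about tensors of bounded degree, or about subspaces of the one
realization `End V = V ⊗ V^∨` of the motive `End M`:

* `Quartic`: the Tate classes in `End (End V) = V ⊗ V^∨ ⊗ V ⊗ V^∨` are motivated: every linear map from
  `End V` to itself which commutes with a subgroup of finite index of `Γ` commutes with the adjoint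
  action of `𝔤`;
* `Endo`: the Tate classes in `End V` are motivated;
* `Normal`: the Lie algebra of the endomorphisms of `V` which kill all Tate tensors (for semisimple `V`
  this is the Lie algebra of the `ℓ`-adic monodromy group) is stable under the adjoint action of `𝔤`;
* `LieStable`: every Lie algebra of endomorphisms of `V` which is stable under an open subgroup of the
  Galois group is stable under the adjoint action of `𝔤`. So this is a statement about
  subrepresentations of `End V`.

The remaining part of the conjecture is about the centre of the motivic Galois group: `Central` says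
that the centre of `𝔤` kills all Tate tensors, or that the Tate tensors which are killed by all
brackets of elements of `𝔤` are killed by `𝔤`; the latter is the conjecture for the motives with
abelian motivic Galois group (so of CM type) in the tensor category generated by `M`.

**Theorem.** For every motive `M` over every finitely generated field of characteristic zero and
for every prime number `ℓ`:

1. `AllTate ↔ Semisimple ∧ Quartic ∧ Central`: if `V` is semisimple and the Tate classes on the fourth
   tensor power of type (2, 2) are motivated, then all Tate classes on all tensor powers are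
   motivated, if those with abelian motivic Galois group are.
2. `AllTate ↔ Semisimple ∧ Endo ∧ Normal ∧ Central`.
3. If `LieStable` holds then `V` is **semisimple** and `Endo` and `Normal` hold; so
   `LieStable ∧ Central → AllTate`. Conversely `AllTate` implies `LieStable` if the representation `End V`
   is semisimple (which follows from the semisimplicity of `V` by a theorem of Chevalley). So the
   conjecture for `M`, including the semisimplicity of `V`, says that all Lie algebras in `End V` which
   are stable under an open subgroup of `Γ` are stable under the motivic Lie algebra, and nothing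
   about other tensor spaces is needed, except for the central part.
4. `Central` is true if `V` is semisimple, one element of `Γ` acts purely of weight `w i` on `V i`, and
   the central elements of `𝔤` are the multiples of the weight operator. For instance it is
   true for the motives of weight different from zero whose motivic Galois group is generated by the
   homotheties and a semisimple group. For them `AllTate ↔ Semisimple ∧ Quartic` and
   `LieStable → AllTate`.

What is in the starting library: `R913.Adj.derived_le` (not used in the form of a hand-in) says that for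
semisimple `V` the brackets of elements of `𝔤` kill the Tate tensors if all equivariant maps
`End V_i → End V_j` are `𝔤`-equivariant; this is a part of the implication from right to left in 1.
The criteria 2 and 3, in particular the one without semisimplicity, and the equivalences are new.

Proof. Let `L` be the Lie algebra of the endomorphisms which kill all Tate tensors; it is contained in `𝔤`
by the property `algebraic`. If `V` is semisimple the trace form on `L` is nondegenerate (library), and
the orthogonal projection of `End V` to `L` commutes with `Γ`. If it is motivated then `L` is stable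
under `𝔤`. Then every `X` in `𝔤` is the sum of an element of `L` and of an operator `Z` which commutes
with `L`; by the theorem of the library on torsion-free neighbourhoods `Z` commutes with an open
subgroup of `Γ`, so by `Endo` it commutes with `𝔤`. So `𝔤` is the sum of `L` and of central elements and
`Central` gives `L = 𝔤`. For 3: if `W` is a stable subspace of `V` the endomorphisms with image in `W` form a
stable Lie algebra; so `W` is stable under `𝔤`, it has a `𝔤`-stable complement, whose projector is
motivated, so a Tate class, and `V` is semisimple. If `P` commutes with an open subgroup, then the lines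
spanned by `P` and by `P + 1` are stable Lie algebras, so stable under `𝔤`, and it follows that `P`
commutes with `𝔤`.
-/

open Module

noncomputable section

namespace Pool.Agent.Results.MP_bbcdf5_ag.QuarticTensors

open Pool.Agent.Y114.TF Pool.Agent.Y114.RM Pool.Agent.H204R3.GP Pool.Agent.R913.Adj

/-! ### Representations and the motivic Lie algebra -/

section tate

variable {k V Γ : Type} [Field k] [AddCommGroup V] [Module k V] [Group Γ]
  (ρ : Representation k Γ V) (𝔤 : Submodule k (End k V))

/-- The representation is semisimple under all subgroups of finite index, and the Tate tensors are the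
tensors killed by `𝔤`. -/
def IsFull : Prop :=
  FiniteIndexSemisimple ρ ∧
    ∀ (m : ℕ) (φ : Tensor k V m), TateTensor ρ φ ↔ ∀ X ∈ 𝔤, KillsTensor X φ

/-- Every linear map `p : End V → End V` which commutes with the conjugations by the elements of a
subgroup of finite index of `Γ` commutes with the brackets with the elements of `𝔤`. -/
def QuarticTate : Prop := ∀ p : End k V →ₗ[k] End k V,
  (∃ Δ : Subgroup Γ, Δ.FiniteIndex ∧ ∀ γ ∈ Δ, ∀ Y, p (ρ γ * Y * ρ γ⁻¹) = ρ γ * p Y * ρ γ⁻¹) →
    ∀ X ∈ 𝔤, ∀ Y, p (X * Y - Y * X) = X * p Y - p Y * X

/-- An endomorphism which commutes with a subgroup of finite index of `Γ` commutes with `𝔤`. -/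
def EndTate : Prop := ∀ P : End k V,
  (∃ Δ : Subgroup Γ, Δ.FiniteIndex ∧ ∀ γ ∈ Δ, P * ρ γ = ρ γ * P) → ∀ X ∈ 𝔤, X * P = P * X

/-- If `Y` kills all Tate tensors then so does `[X, Y]` for every `X` in `𝔤`. -/
def Normalized : Prop := ∀ X ∈ 𝔤, ∀ Y : End k V,
  (∀ (m : ℕ) (φ : Tensor k V m), TateTensor ρ φ → KillsTensor Y φ) →
    ∀ (m : ℕ) (φ : Tensor k V m), TateTensor ρ φ → KillsTensor (X * Y - Y * X) φ

/-- Every Lie algebra `U` of endomorphisms of `V` which is stable under the conjugations by the elements
of a subgroup of finite index of `Γ` is stable under the brackets with the elements of `𝔤`. -/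
def StableLieAlgebras : Prop := ∀ U : Submodule k (End k V),
  (∀ X ∈ U, ∀ Y ∈ U, X * Y - Y * X ∈ U) →
    (∃ Δ : Subgroup Γ, Δ.FiniteIndex ∧ ∀ γ ∈ Δ, ∀ Y ∈ U, ρ γ * Y * ρ γ⁻¹ ∈ U) →
      ∀ X ∈ 𝔤, ∀ Y ∈ U, X * Y - Y * X ∈ U

/-- The central elements of `𝔤` kill all Tate tensors. -/
def CentreKills : Prop := ∀ z ∈ 𝔤, (∀ X ∈ 𝔤, z * X = X * z) →
  ∀ (m : ℕ) (φ : Tensor k V m), TateTensor ρ φ → KillsTensor z φ

/-- The Tate tensors which are killed by the brackets of elements of `𝔤` are killed by `𝔤`. -/
def AbelianTate : Prop := ∀ (m : ℕ) (φ : Tensor k V m), TateTensor ρ φ →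
  (∀ X ∈ 𝔤, ∀ Y ∈ 𝔤, KillsTensor (X * Y - Y * X) φ) → ∀ X ∈ 𝔤, KillsTensor X φ

/-- The space `End V` is a semisimple representation of all subgroups of finite index of `Γ`, which act
by conjugation. -/
def EndSemisimple : Prop := ∀ Δ : Subgroup Γ, Δ.FiniteIndex →
  ∀ U : Submodule k (End k V), (∀ γ ∈ Δ, ∀ Y ∈ U, ρ γ * Y * ρ γ⁻¹ ∈ U) →
    ∃ U' : Submodule k (End k V), (∀ γ ∈ Δ, ∀ Y ∈ U', ρ γ * Y * ρ γ⁻¹ ∈ U') ∧ IsCompl U U'

end tate

section props

variable (Γ : Type) [Group Γ] {ι : Type} (n : ι → ℕ) (ℓ : ℕ) [Fact ℓ.Prime]

/-- Representations of `Γ` on the spaces `ℚ_ℓ ^ (n i)`. -/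
abbrev Reps : Type := ∀ i, Representation ℚ_[ℓ] Γ (Fin (n i) → ℚ_[ℓ])

/-- Spaces of endomorphisms of the direct sum of the spaces `ℚ_ℓ ^ (n i)`. -/
abbrev EndSpace : Type := Submodule ℚ_[ℓ] (End ℚ_[ℓ] (∀ i, Fin (n i) → ℚ_[ℓ]))

variable {Γ n ℓ} (ρ : Reps Γ n ℓ) (𝔤 : EndSpace n ℓ)

/-- The representations are continuous. -/
def Conts [TopologicalSpace Γ] : Prop := ∀ i, Continuous fun g => LinearMap.toMatrix' (ρ i g)

/-- The central elements of `𝔤` are multiples of the operator which acts on the `i`-th summand by
multiplication with `w i`. -/
def CentreOfWeights (w : ι → ℤ) : Prop := ∀ z ∈ 𝔤, (∀ X ∈ 𝔤, z * X = X * z) →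
  ∃ c : ℚ_[ℓ], ∀ x i, z x i = (c * w i) • x i

/-- Some element of `Γ` acts purely of weight `w i` on the `i`-th representation: its
characteristic polynomials are rational, with all roots of absolute value `q ^ (w i / 2)` for some
`q > 1`. -/
def Pure (w : ι → ℤ) : Prop := ∃ γ : Γ, ActsPurely ρ w γ

variable [Fintype ι] [DecidableEq ι]

/-- `𝔤` has the properties of the Lie algebra of the motivic Galois group (see `IsMotivic`). -/
def Motivic : Prop := IsMotivic ρ 𝔤

/-- The direct sum is semisimple as a representation of every subgroup of finite index. -/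
def Semisimple : Prop := FiniteIndexSemisimple (sumRep ρ)

/-- The conjecture for the direct sum (see `IsFull`). -/
def AllTate : Prop := IsFull (sumRep ρ) 𝔤

/-- The Tate classes in `V ⊗ V^∨ ⊗ V ⊗ V^∨` are motivated (see `QuarticTate`). -/
def Quartic : Prop := QuarticTate (sumRep ρ) 𝔤

/-- The Tate classes in `V ⊗ V^∨` are motivated (see `EndTate`). -/
def Endo : Prop := EndTate (sumRep ρ) 𝔤

/-- The Lie algebra of the Tate tensors is stable under `𝔤` (see `Normalized`). -/
def Normal : Prop := Normalized (sumRep ρ) 𝔤

/-- All Lie algebras in `End V` which are stable under an open subgroup are stable under `𝔤` (see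
`StableLieAlgebras`). -/
def LieStable : Prop := StableLieAlgebras (sumRep ρ) 𝔤

/-- The conjecture for the centre (see `CentreKills`), or for the motives with abelian motivic Galois
group (see `AbelianTate`). -/
def Central : Prop := CentreKills (sumRep ρ) 𝔤 ∨ AbelianTate (sumRep ρ) 𝔤

end props

/-- **Theorem.** The motivic Tate conjecture for a motive is equivalent to the semisimplicity together
with its part for the tensors of type (2, 2), or to the stability of the stable Lie algebras, and
its part for the centre; the latter is true if the centre consists of weight operators. -/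
theorem result {Γ : Type} [Group Γ] [TopologicalSpace Γ] [IsTopologicalGroup Γ] [CompactSpace Γ]
    {ι : Type} [Fintype ι] [DecidableEq ι] {n : ι → ℕ} {ℓ : ℕ} [Fact ℓ.Prime]
    (ρ : Reps Γ n ℓ) (hρ : Conts ρ) (𝔤 : EndSpace n ℓ) (h𝔤 : Motivic ρ 𝔤) :
    (AllTate ρ 𝔤 ↔ Semisimple ρ ∧ Quartic ρ 𝔤 ∧ Central ρ 𝔤) ∧
      (AllTate ρ 𝔤 ↔ Semisimple ρ ∧ Endo ρ 𝔤 ∧ Normal ρ 𝔤 ∧ Central ρ 𝔤) ∧
      (LieStable ρ 𝔤 → Semisimple ρ ∧ Endo ρ 𝔤 ∧ Normal ρ 𝔤) ∧
      (LieStable ρ 𝔤 ∧ Central ρ 𝔤 → AllTate ρ 𝔤) ∧
      (EndSemisimple (sumRep ρ) → AllTate ρ 𝔤 → LieStable ρ 𝔤 ∧ Central ρ 𝔤) ∧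
      ∀ w, Pure ρ w → CentreOfWeights 𝔤 w → Semisimple ρ → Central ρ 𝔤 := by
  have hnorm : Semisimple ρ → Quartic ρ 𝔤 → Normal ρ 𝔤 := fun hss hQ =>
    V5helper84.QT.normal_of_quartic ρ h𝔤 hss hQ
  have hend : Quartic ρ 𝔤 → Endo ρ 𝔤 := fun hQ => V5helper84.QT.Quartic.endo hQ
  have main : Semisimple ρ ∧ Endo ρ 𝔤 ∧ Normal ρ 𝔤 ∧ Central ρ 𝔤 → AllTate ρ 𝔤 :=
    fun h => ⟨h.1, V5helper84.QT.tate_of_normal ρ hρ h𝔤 h.1 h.2.1 h.2.2.2 h.2.2.1⟩
  have conv : AllTate ρ 𝔤 → Quartic ρ 𝔤 ∧ Central ρ 𝔤 := fun h =>
    ⟨(V5helper84.QT.quartic_of_tate fun m φ hφ => (h.2 m φ).1 hφ).1,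
      Or.inl (V5helper84.QT.quartic_of_tate fun m φ hφ => (h.2 m φ).1 hφ).2⟩
  have lie : LieStable ρ 𝔤 → Semisimple ρ ∧ Endo ρ 𝔤 ∧ Normal ρ 𝔤 := fun h =>
    ⟨V5helper84.QT.semisimple_of_lie ρ h𝔤 h, V5helper84.QT.LieStable.endo h,
      V5helper84.QT.normal_of_lie ρ h𝔤 h⟩
  refine ⟨⟨fun h => ⟨h.1, conv h⟩, fun h => main ⟨h.1, hend h.2.1, hnorm h.1 h.2.1, h.2.2⟩⟩,
    ⟨fun h => ⟨h.1, hend (conv h).1, hnorm h.1 (conv h).1, (conv h).2⟩, main⟩, lie,
    fun h => main ⟨(lie h.1).1, (lie h.1).2.1, (lie h.1).2.2, h.2⟩, fun hA h =>
      ⟨V5helper84.QT.lieStable_of_quartic hA (conv h).1, (conv h).2⟩, fun w hw hc hss => ?_⟩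
  obtain ⟨γ, hγ⟩ := hw
  exact Or.inl (V5helper84.QT.centre_of_weight ρ hss hγ hc)

end Pool.Agent.Results.MP_bbcdf5_ag.QuarticTensors
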