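import Pool.Agent.V5helper84.SR.Frob

/-!
# The motivic Tate conjecture and one element which separates the roots

Let `k` be a finitely generated field of characteristic zero and let `M i` be finitely many motives over
`k` (of André, or for absolute Hodge cycles); `V i = ℚ_ℓ ^ (n i)` are their `ℓ`-adic realizations, with
the actions `ρ i` of the Galois group `Γ` of `k`, and `M` is the direct sum of the `M i`, with
realization `V`. Let `𝔤` be the Lie algebra of the `ℓ`-adic motivic Galois group of `M`. The
properties of `𝔤` which are used are collected in `IsMotivic` (starting library): it is a Lie algebra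
which respects the direct sum, it is reductive, it consists of all endomorphisms which kill all
tensors killed by `𝔤`, and these tensors are Tate tensors, that is, fixed by a subgroup of finite
index of `Γ`, since motivated classes are Tate classes.

The motivic Tate conjecture for `M`, up to finite groups (equivalently the motivic Mumford-Tate
conjecture, which is equivalent to the motivic Tate conjecture, see the problem), says that the
representation of `Γ` is semisimple (for all subgroups of finite index), and that the Tate tensors, in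
any number of variables in `V` and its dual space, are exactly the tensors killed by `𝔤` (`AllTate`).

Let `γ` be an element of `Γ`, for instance a Frobenius element; it normalizes `𝔤`. We say that `γ`
*separates the roots* (`Separates`) if the only relations between its values at the roots of `𝔤` are
the trivial ones: for the generalized eigenspaces `𝔤_μ` of the conjugation by `γ` on
`𝔤_ℂ = 𝔤 ⊗ ℂ`,

* the elements of `𝔤_1` commute with each other;
* `𝔤_μ = 0` for all roots of unity `μ ≠ 1`;
* `dim 𝔤_μ ≤ 1` for all `μ ≠ 1`.

**Theorem.** For every motive `M` over every finitely generated field of characteristic zero, every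
prime number `ℓ` and every `γ` in the Galois group:

1. If `γ` separates the roots, then `AllTate ↔ Semisimple ∧ Endo ∧ Centre`: the conjecture holds for all
   tensors, if `V` is semisimple, the Tate classes in `End V` are motivated, and the centre of the
   motivic Galois group is contained in the monodromy group.
2. Let `M` be polarized, with similitude factor `q` of `γ`, and let the characteristic polynomial `P` of
   `γ` have rational coefficients. If `P` is `Generic`, then `γ` separates the roots. `Generic` is a
   condition on the complex roots of the polynomial `P`, not on the (in general unknown) motivic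
   Galois group: the roots are simple, their quotients are not roots of unity, and there are no
   equalities `x / y = z / w`, `x ≠ y`, between quotients of roots except the trivial ones
   `(z, w) = (x, y)` and `(z, w) = (q / y, q / x)`.
3. `Centre` is true if `V` is semisimple, one element of `Γ` acts purely of weight `w i` on `V i`, and
   the central elements of `𝔤` are the multiples of the weight operator.

In the criteria which are known for one Frobenius element the Zariski closure of its powers is a
maximal torus of the motivic Galois group (maximal rank of the Frobenius torus; the starting library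
has `MP_33b3f9_ag`, `R931.BD` and `TateAtGivenPrime`). This is a condition on all multiplicative
relations between the eigenvalues of `γ`, and it implies that the roots are separated. Here the
Frobenius torus can be smaller than a maximal torus, there can be as many multiplicative relations
of degree greater than four as one likes. For example let `K` be a CM field and `Φ` a CM type, and let
`P` be the characteristic polynomial of a Weil number which generates `K` whose Frobenius torus has
small dimension (`Φ` degenerate, see `MP_33b3f9_ag.AlmostAllSlopeTypes`): if `P` is generic, the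
theorem applies to all motives for which it is a Frobenius polynomial, whatever their motivic Galois
groups.

Proof. Let `L` be the Lie algebra of the endomorphisms which kill all Tate tensors. It is contained in
`𝔤`, it is stable under the conjugation by `γ`, and the trace form on it is nondegenerate, since `V` is
semisimple. If `γ` separates the roots, then `𝔤_1` is a Cartan algebra of `𝔤_ℂ`, and `L_ℂ` is the sum of
`𝔤_1 ∩ L_ℂ` and of some of the `𝔤_μ`; so it is normalized by `𝔤_1`. Therefore every element of `𝔤_1` is
the sum of an element of `L_ℂ` and of an element which commutes with `L_ℂ`; by the theorem on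
torsion-free neighbourhoods (starting library) and `Endo` the latter is central in `𝔤_ℂ`, so in `L_ℂ`
by `Centre`. So `L` contains a maximal torus of `𝔤` and has the same commutant as `𝔤`, and a theorem of
Borel and de Siebenthal (`R931.BD`, starting library) gives `L = 𝔤`.
-/

open Module Polynomial TensorProduct

noncomputable section

namespace Pool.Agent.Results.MP_bbcdf5_ag.SeparatedRoots

open Pool.Agent.Y114.TF Pool.Agent.Y114.RM Pool.Agent.H204R3.GP Pool.Agent.R913.Adj

/-! ### Representations and the motivic Lie algebra -/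

section tate

variable {k V Γ : Type} [Field k] [AddCommGroup V] [Module k V] [Group Γ]
  (ρ : Representation k Γ V) (𝔤 : Submodule k (End k V))

/-- The representation is semisimple under all subgroups of finite index, and the Tate tensors are the
tensors killed by `𝔤`. -/
def IsFull : Prop :=
  FiniteIndexSemisimple ρ ∧
    ∀ (m : ℕ) (φ : Tensor k V m), TateTensor ρ φ ↔ ∀ X ∈ 𝔤, KillsTensor X φ

/-- An endomorphism which commutes with a subgroup of finite index of `Γ` commutes with `𝔤`. -/
def EndTate : Prop := ∀ P : End k V,
  (∃ Δ : Subgroup Γ, Δ.FiniteIndex ∧ ∀ γ ∈ Δ, P * ρ γ = ρ γ * P) → ∀ X ∈ 𝔤, X * P = P * X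

/-- The central elements of `𝔤` kill all Tate tensors. -/
def CentreKills : Prop := ∀ z ∈ 𝔤, (∀ X ∈ 𝔤, z * X = X * z) →
  ∀ (m : ℕ) (φ : Tensor k V m), TateTensor ρ φ → KillsTensor z φ

end tate

/-! ### Linear algebra -/

section linear

variable {K W : Type} [Field K] [AddCommGroup W] [Module K W]

/-- The conjugation `X ↦ g X g'` by `g`, with inverse `g'`. -/
def conj (g g' : End K W) : End K (End K W) := LinearMap.mulLeft K g * LinearMap.mulRight K g'

/-- The conjugation by `g` maps `G` to itself. -/
def IsNormalizing (G : Submodule K (End K W)) (g g' : End K W) : Prop := ∀ X ∈ G, conj g g' X ∈ G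

/-- The space `G_μ`: the generalized eigenspace for `μ` of the conjugation by `g` on `G`. -/
def part (G : Submodule K (End K W)) (g g' : End K W) (μ : K) : Submodule K (End K W) :=
  G ⊓ Module.End.maxGenEigenspace (conj g g') μ

/-- The conjugation by `g` separates the roots of the Lie algebra `G`: the elements of `G_1` commute
with each other, `G_μ = 0` for all roots of unity `μ ≠ 1`, and `dim G_μ ≤ 1` for all `μ ≠ 1` (all
elements of `G_μ` are multiples of one element). -/
structure IsSeparating (G : Submodule K (End K W)) (g g' : End K W) : Prop where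
  commutative : ∀ X ∈ part G g g' 1, ∀ Y ∈ part G g g' 1, X * Y = Y * X
  torsionfree : ∀ (μ : K) (m : ℕ), μ ≠ 1 → 0 < m → μ ^ m = 1 → part G g g' μ = ⊥
  simple : ∀ μ : K, μ ≠ 1 → ∃ X, ∀ Y ∈ part G g g' μ, ∃ c : K, Y = c • X

/-- The complex span `G_ℂ` of `G`, for an embedding of `K` in `ℂ`. -/
def complexSpan [Algebra K ℂ] (G : Submodule K (End K W)) : Submodule ℂ (End ℂ (ℂ ⊗[K] W)) :=
  Submodule.span ℂ ((fun X : End K W => X.baseChange ℂ) '' G)

/-- The conjugation by `g`, with inverse `g'`, separates the roots of `G_ℂ`. -/
def IsSeparatingC [Algebra K ℂ] (G : Submodule K (End K W)) (g g' : End K W) : Prop :=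
  IsSeparating (complexSpan G) (g.baseChange ℂ) (g'.baseChange ℂ)

/-- The bilinear form `ω` is nondegenerate. -/
def IsNondegenerate (ω : W →ₗ[K] W →ₗ[K] K) : Prop := ∀ u, (∀ v, ω u v = 0) → u = 0

/-- The endomorphism `g` is a similitude of `ω` with factor `q`. -/
def IsSimilitude (ω : W →ₗ[K] W →ₗ[K] K) (g : End K W) (q : K) : Prop :=
  ∀ u v, ω (g u) (g v) = q * ω u v

/-- The endomorphism `X` is an infinitesimal similitude of `ω`. -/
def IsInfinitesimal (ω : W →ₗ[K] W →ₗ[K] K) (X : End K W) : Prop :=
  ∃ c : K, ∀ u v, ω (X u) v + ω u (X v) = c * ω u v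

/-- A polarization: the bilinear form `ω` is nondegenerate, `g` is a similitude of `ω` with factor `q`,
and the elements of the Lie algebra `G` are infinitesimal similitudes. -/
def IsPolarization (ω : W →ₗ[K] W →ₗ[K] K) (G : Submodule K (End K W)) (g : End K W) (q : K) : Prop :=
  IsNondegenerate ω ∧ IsSimilitude ω g q ∧ ∀ X ∈ G, IsInfinitesimal ω X

end linear

/-- The polynomial `P` with rational coefficients has simple roots, no quotient of two different
complex roots is a root of unity, and `x / y = z / w` for roots `x ≠ y`, `z`, `w` only if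
`(z, w) = (x, y)` or `(z, w) = (q / y, q / x)`. -/
structure Generic (P : ℚ[X]) (q : ℚ) : Prop where
  separable : P.Separable
  torsionfree : ∀ x y : ℂ, aeval x P = 0 → aeval y P = 0 →
    ∀ m : ℕ, 0 < m → x ^ m = y ^ m → x = y
  coincidence : ∀ x y z w : ℂ, aeval x P = 0 → aeval y P = 0 → aeval z P = 0 → aeval w P = 0 →
    x ≠ y → x * w = z * y → (z = x ∧ w = y) ∨ (z * y = (q : ℂ) ∧ w * x = (q : ℂ))

section props

variable (Γ : Type) [Group Γ] {ι : Type} (n : ι → ℕ) (ℓ : ℕ) [Fact ℓ.Prime]

/-- Representations of `Γ` on the spaces `ℚ_ℓ ^ (n i)`. -/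
abbrev Reps : Type := ∀ i, Representation ℚ_[ℓ] Γ (Fin (n i) → ℚ_[ℓ])

/-- Spaces of endomorphisms of the direct sum of the spaces `ℚ_ℓ ^ (n i)`. -/
abbrev EndSpace : Type := Submodule ℚ_[ℓ] (End ℚ_[ℓ] (∀ i, Fin (n i) → ℚ_[ℓ]))

/-- Bilinear forms on the direct sum of the spaces `ℚ_ℓ ^ (n i)`. -/
abbrev Form : Type :=
  (∀ i, Fin (n i) → ℚ_[ℓ]) →ₗ[ℚ_[ℓ]] (∀ i, Fin (n i) → ℚ_[ℓ]) →ₗ[ℚ_[ℓ]] ℚ_[ℓ]

variable {Γ n ℓ} (ρ : Reps Γ n ℓ) (𝔤 : EndSpace n ℓ)

/-- The representations are continuous. -/
def Conts [TopologicalSpace Γ] : Prop := ∀ i, Continuous fun g => LinearMap.toMatrix' (ρ i g)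

/-- The central elements of `𝔤` are multiples of the operator which acts on the `i`-th summand by
multiplication with `w i`. -/
def CentreOfWeights (w : ι → ℤ) : Prop := ∀ z ∈ 𝔤, (∀ X ∈ 𝔤, z * X = X * z) →
  ∃ c : ℚ_[ℓ], ∀ x i, z x i = (c * w i) • x i

/-- Some element of `Γ` acts purely of weight `w i` on the `i`-th representation: its
characteristic polynomials are rational, with all roots of absolute value `q ^ (w i / 2)` for some
`q > 1`. -/
def Pure (w : ι → ℤ) : Prop := ∃ γ : Γ, ActsPurely ρ w γ

variable [Fintype ι] [DecidableEq ι]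

/-- `𝔤` has the properties of the Lie algebra of the motivic Galois group (see `IsMotivic`). -/
def Motivic : Prop := IsMotivic ρ 𝔤

/-- The direct sum is semisimple as a representation of every subgroup of finite index. -/
def Semisimple : Prop := FiniteIndexSemisimple (sumRep ρ)

/-- The conjecture for the direct sum (see `IsFull`). -/
def AllTate : Prop := IsFull (sumRep ρ) 𝔤

/-- The Tate classes in `V ⊗ V^∨` are motivated (see `EndTate`). -/
def Endo : Prop := EndTate (sumRep ρ) 𝔤

/-- The centre is contained in the Lie algebra of the Tate tensors (see `CentreKills`). -/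
def Centre : Prop := CentreKills (sumRep ρ) 𝔤

/-- The element `γ` normalizes `𝔤`. -/
def Normalizes (γ : Γ) : Prop := IsNormalizing 𝔤 (sumRep ρ γ) (sumRep ρ γ⁻¹)

/-- The element `γ` separates the roots of `𝔤`, for some embedding of `ℚ_ℓ` in `ℂ`
(see `IsSeparating`). -/
def Separates (γ : Γ) : Prop := ∃ _ : Algebra ℚ_[ℓ] ℂ, IsSeparatingC 𝔤 (sumRep ρ γ) (sumRep ρ γ⁻¹)

/-- The form `ω` is a polarization with similitude factor `q` of `γ` (see `IsPolarization`), and the
characteristic polynomial of `γ` is the generic polynomial `P`. -/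
def GenericPolarized (ω : Form n ℓ) (γ : Γ) (P : ℚ[X]) (q : ℚ) : Prop :=
  IsPolarization ω 𝔤 (sumRep ρ γ) q ∧ (sumRep ρ γ).charpoly = P.map (algebraMap ℚ ℚ_[ℓ]) ∧
    Generic P q

end props

section bridge

variable {K W : Type} [Field K] [AddCommGroup W] [Module K W]

theorem sep_iff {G : Submodule K (End K W)} {g g' : End K W} :
    IsSeparating G g g' ↔ V5helper84.SR.Sep g g' G := by
  have key : ∀ (μ : K) (X : End K W), X ∈ part G g g' μ ↔ X ∈ G ∧
      X ∈ V5helper84.SR.ge g g' μ := fun μ X => Iff.rfl
  constructor
  · intro h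
    refine ⟨fun X hX hX1 Y hY hY1 => h.commutative X ⟨hX, hX1⟩ Y ⟨hY, hY1⟩,
      fun μ m hμ hm h1 X hX hX1 => ?_, fun μ hμ X hX hX1 Y hY hY1 hX0 => ?_⟩
    · have h2 : X ∈ part G g g' μ := ⟨hX, hX1⟩
      rw [h.torsionfree μ m hμ hm h1] at h2
      exact (Submodule.mem_bot K).1 h2
    · obtain ⟨v, hv⟩ := h.simple μ hμ
      obtain ⟨a, rfl⟩ := hv X ⟨hX, hX1⟩
      obtain ⟨b, rfl⟩ := hv Y ⟨hY, hY1⟩
      have ha0 : a ≠ 0 := by
        rintro rfl
        exact hX0 (zero_smul K v)
      refine ⟨b * a⁻¹, ?_⟩
      rw [smul_smul, mul_assoc, inv_mul_cancel₀ ha0, mul_one]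
  · intro h
    refine ⟨fun X hX Y hY => h.comm X hX.1 hX.2 Y hY.1 hY.2, fun μ m hμ hm h1 => ?_,
      fun μ hμ => ?_⟩
    · rw [eq_bot_iff]
      intro X hX
      exact (Submodule.mem_bot K).2 (h.unity μ m hμ hm h1 X hX.1 hX.2)
    · by_cases h0 : ∃ X ∈ part G g g' μ, X ≠ 0
      · obtain ⟨X, hX, hX0⟩ := h0
        exact ⟨X, fun Y hY => h.simple μ hμ X hX.1 hX.2 Y hY.1 hY.2 hX0⟩
      · push Not at h0
        exact ⟨0, fun Y hY => ⟨0, by rw [h0 Y hY, smul_zero]⟩⟩

end bridge

/-- **Theorem.** If `γ` separates the roots of the motivic Lie algebra, the conjecture holds if and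
only if the representation is semisimple, the Tate classes in `End V` are motivated, and the centre
kills the Tate tensors. A polarized element with a generic characteristic polynomial separates the
roots. The condition on the centre is true if the centre consists of weight operators. -/
theorem result {Γ : Type} [Group Γ] [TopologicalSpace Γ] [IsTopologicalGroup Γ] [CompactSpace Γ]
    {ι : Type} [Fintype ι] [DecidableEq ι] {n : ι → ℕ} {ℓ : ℕ} [Fact ℓ.Prime]
    (ρ : Reps Γ n ℓ) (hρ : Conts ρ) (𝔤 : EndSpace n ℓ) (h𝔤 : Motivic ρ 𝔤)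
    (γ : Γ) (hγ : Normalizes ρ 𝔤 γ) :
    (Separates ρ 𝔤 γ → (AllTate ρ 𝔤 ↔ Semisimple ρ ∧ Endo ρ 𝔤 ∧ Centre ρ 𝔤)) ∧
      (∀ (ω : Form n ℓ) (P : ℚ[X]) (q : ℚ), GenericPolarized ρ 𝔤 ω γ P q →
        Separates ρ 𝔤 γ) ∧
      ∀ w, Pure ρ w → CentreOfWeights 𝔤 w → Semisimple ρ → Centre ρ 𝔤 := by
  refine ⟨fun ⟨alg, hs⟩ => ⟨fun h => ⟨h.1, ?_⟩, fun h => ⟨h.1, fun m φ => ?_⟩⟩,
    fun ω P q ⟨h1, h2, h3⟩ => ?_, fun w hw hc hss => ?_⟩
  · have h1 := V5helper84.QT.quartic_of_tate fun m φ hφ => (h.2 m φ).1 hφ
    exact ⟨V5helper84.QT.Quartic.endo h1.1, h1.2⟩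
  · refine V5helper84.SR.tate_of_sep ρ hρ h𝔤 h.1 h.2.1 h.2.2 alg γ (fun X hX => ?_)
      (sep_iff.1 hs) m φ
    rw [mul_assoc]
    exact hγ X hX
  · obtain ⟨j⟩ := R913.Adj.exists_emb ℓ
    let alg : Algebra ℚ_[ℓ] ℂ := j.toAlgebra
    exact ⟨alg, sep_iff.2 (V5helper84.SR.sep_of_frob (R913.Adj.rmi (sumRep ρ) γ)
      (R913.Adj.rim (sumRep ρ) γ) h1.1 h1.2.1 h1.2.2 h2
      ⟨h3.separable, h3.torsionfree, h3.coincidence⟩)⟩
  · obtain ⟨γ', hγ'⟩ := hw
    exact V5helper84.QT.centre_of_weight ρ hss hγ' hc

end Pool.Agent.Results.MP_bbcdf5_ag.SeparatedRoots
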