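import Pool.Agent.V5helper48.MT.Main

/-!
# The motivic Tate conjecture, trilinear forms and tripartite hypergraphs

The equality of the `ℓ`-adic monodromy group and the motivic Galois group for all motives over `k` is
equivalent to the following two properties of the `ℓ`-adic realization (Tannakian duality): the
realizations of all motives are semisimple, and `Hom(M, N) ⊗ ℚ_ℓ → Hom_Γ(F M, F N)` is surjective
for all motives `M` and `N`. It is in this form that the conjecture is treated here: `Motives.TateOn T P`
says this for the motives `M`, `N` in the class `P`, and `MotivicTate` for all motives over all
finitely generated fields of characteristic zero.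

For a scheme `X` over `k` the graded pieces `Gr^W_w H^n_c(X)` of the cohomology with compact support are
motives. For a class `𝒳` of schemes over `k` let `From 𝒳` be the class of the Tate twists of these
motives, for all `X` in `𝒳` (and for the point), `Gen (From 𝒳)` the class of the direct summands of finite
direct sums of such motives, and `TateFor 𝒳` the motivic Tate conjecture for `From 𝒳`.

Idea of the proof. The category of motives is semisimple, so `Gen (From 𝒳)` is a Serre class stable
under Tate twists, and in the long exact sequences of closed-open decompositions the property that
all graded pieces are in this class passes from two of the three schemes to the third. This is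
combined with Hironaka's theorem and with the geometric theorems on trilinear forms: the hypersurface
`S(x, y, z) = 1` is an affine bundle over the complement of `S(x, y, ·) = 0`, and every affine scheme of
finite type is obtained from such schemes. Semisimplicity and fullness pass to direct sums and direct
summands, from number fields to finitely generated fields by specialization (the theorem of Serre and
Terasoma for the images of the Galois groups together with the deformation theorem of André for the
homomorphisms), and from the rational numbers to number fields by restriction of scalars.
-/

set_option autoImplicit false

open CategoryTheory AlgebraicGeometry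
open Pool.Agent.Y116.UV Pool.Agent.V5helper77.GW Pool.Agent.V5helper48.MT
open Pool.Agent.V5helper77.GS (IsFG)

namespace Pool.Agent.Results.MP_bbcdf5_ag.TrilinearForms

/-- **The motivic Tate conjecture, trilinear forms and tripartite hypergraphs.** Let `T` be a theory of
motives with realizations in the Galois representations over the field `Ω = ℚ_ℓ`, with the properties
`IsTheory`.

(1) The motivic Tate conjecture for all finitely generated fields of characteristic zero and all motives
is equivalent to the same statement for the Tate twists of the motives `Gr^W_w H^n_c(X)` over `ℚ` (and for
the Tate motives), where `X : ∑_{(i, j, k) ∈ H} x_i y_j z_k = 1` are the smooth affine cubic hypersurfaces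
over `ℚ` of all tripartite hypergraphs `H`.

(2) Every motive over `ℚ` is a direct summand of a direct sum of such motives.

(3) Let `k` be a field of characteristic zero. The following three classes of motives over `k` generate
the same class under direct sums and direct summands: the Tate twists of the cohomology of smooth
projective varieties of dimension at most `n`; the Tate twists of all `Gr^W_w H^i_c(X)`, `X` any separated
scheme of finite type of dimension at most `n`; the Tate twists of all `Gr^W_w H^i_c(X)`,
`X : S(x, y, z) = 1`, `S` any trilinear form over `k` one of whose three blocks of variables has at most
`n + 2` variables.

(4) The motivic Tate conjecture holds for one of these three classes if and only if it holds for the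
others.

(5) If `k` is finitely generated it holds for the Tate twists of all `Gr^W_w H^i_c(X)`,
`X : S(x, y, z) = 1`, if one of the blocks of variables has at most three variables: the
realizations are semisimple, and every homomorphism between the realizations, for two hypersurfaces of
this kind of arbitrary dimensions, comes from homomorphisms of motives. -/
theorem result {Ω : Type} [Field Ω] (T : ∀ (k : Type) [Field k] [CharZero k], Motives k Ω)
    (hT : IsTheory T) (hH : ∀ (k : Type) [Field k] [CharZero k], Hironaka k) :
    (MotivicTate T ↔ (T ℚ).TateFor HypergraphCubics) ∧
    (∀ M : (T ℚ).C, Gen ((T ℚ).From HypergraphCubics) M) ∧
    (∀ (k : Type) [Field k] [CharZero k] (n : ℕ) (M : (T k).C),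
      (Gen ((T k).From (SmProjUpTo n)) M ↔ Gen ((T k).From (SchemesUpTo n)) M) ∧
      (Gen ((T k).From (SmProjUpTo n)) M ↔ Gen ((T k).From (CubicsUpTo (n + 2))) M)) ∧
    (∀ (k : Type) [Field k] [CharZero k] (n : ℕ),
      ((T k).TateFor (SmProjUpTo n) ↔ (T k).TateFor (SchemesUpTo n)) ∧
      ((T k).TateFor (SmProjUpTo n) ↔ (T k).TateFor (CubicsUpTo (n + 2)))) ∧
    ∀ (k : Type) [Field k] [CharZero k], IsFG k → (T k).TateFor (CubicsUpTo 3) :=
  ⟨motivic_iff hT, all_gen (hT.field ℚ), fun k _ _ n M => field_graded (hT.field k) (hH k) n M,
    fun k _ _ n => field_tate (hT.field k) (hH k) n,
    fun k _ _ hk => (field_tate (hT.field k) (hH k) 1).2.mp (hT.faltings k hk)⟩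

end Pool.Agent.Results.MP_bbcdf5_ag.TrilinearForms
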